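import Pool.Agent.H7.TRI.Stmts
import Pool.Agent.H23.KT.Base
import Pool.Agent.H74.TRI.TU1

/-!
Row TU2 of board tri (MP_fd41b2_co): triangles and degrees of the cocktail party graph.
-/

set_option autoImplicit false

namespace Pool.TRI

open Finset Pool.Agent.H23.KT

theorem TU2_thm : TU2Stmt := by
  intro a ha
  constructor
  · rw [ncard_eq_kc, kc_turan _ _ _ (by omega) (by omega), E, P_formula]
    have h1 : 2 * a + 2 - (a + 1) = a + 1 := by omega
    have h2 : 2 * a + 2 - 2 * (a + 1) = 0 := by omega
    rw [h1, h2]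
    simp only [sum_range_succ, sum_range_zero, Nat.choose_zero_right, Nat.choose_one_right,
      pow_zero, pow_one, Nat.sub_zero, zero_add, one_mul, Nat.sub_self, mul_one,
      show 3 - 1 = 2 from rfl, show 3 - 2 = 1 from rfl]
    have e1 := TU1_c2 (a + 1)
    have e3 := TU1_c3 (a + 1)
    obtain ⟨c, rfl⟩ : ∃ c, a = c + 1 := ⟨a - 1, by omega⟩
    have h3 : 2 * (c + 1) - 2 = 2 * c := by omega
    rw [h3]
    simp only [show Nat.choose 0 3 = 0 from rfl, show Nat.choose 0 2 = 0 from rfl, mul_zero,
      zero_add, add_zero]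
    zify at e1 e3 ⊢
    linear_combination 8 * e3
  · intro v
    have hv : ((v : ℕ) + (a + 1)) % (2 * a + 2) < 2 * a + 2 := Nat.mod_lt _ (by omega)
    set v' : Fin (2 * a + 2) := ⟨((v : ℕ) + (a + 1)) % (2 * a + 2), hv⟩ with hv'
    have hval : (v' : ℕ) = ((v : ℕ) + (a + 1)) % (2 * a + 2) := rfl
    have hvlt := v.2
    have hcase : (v' : ℕ) = v + (a + 1) ∨ (v' : ℕ) + (a + 1) = v := by
      rw [hval]
      by_cases h : (v : ℕ) + (a + 1) < 2 * a + 2
      · left
        exact Nat.mod_eq_of_lt h
      · right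
        rw [Nat.mod_eq_sub_mod (by omega), Nat.mod_eq_of_lt (by omega)]
        omega
    have hne : v' ≠ v := by
      intro h
      have := congrArg Fin.val h
      omega
    have hmod : (v : ℕ) % (a + 1) = (v' : ℕ) % (a + 1) := by
      rcases hcase with h | h
      · rw [h, Nat.add_mod_right]
      · rw [← h, Nat.add_mod_right]
    have hsub : (SimpleGraph.turanGraph (2 * a + 2) (a + 1)).neighborSet v ⊆
        (((univ.erase v).erase v' : Finset (Fin (2 * a + 2))) : Set (Fin (2 * a + 2))) := by
      intro w hw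
      rw [SimpleGraph.mem_neighborSet] at hw
      have hw' : (v : ℕ) % (a + 1) ≠ (w : ℕ) % (a + 1) := hw
      rw [mem_coe, mem_erase, mem_erase]
      refine ⟨?_, ?_, mem_univ _⟩
      · intro h
        exact hw' (by rw [h, hmod])
      · intro h
        exact hw' (by rw [h])
    refine le_trans (Set.ncard_le_ncard hsub (Finset.finite_toSet _)) ?_
    rw [Set.ncard_coe_finset, card_erase_of_mem (mem_erase.2 ⟨hne, mem_univ _⟩),
      card_erase_of_mem (mem_univ _), card_univ, Fintype.card_fin]
    omega

end Pool.TRI
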